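import Mathlib
import Pool.Agent.W2helper54.K13B.Main
import Pool.Agent.W2helper54.K13B.Upper

/-!
# Explicit bounds for the mean distance of thirteen centres

If thirteen points of Euclidean 3-space have norms at least 2 and mutual distances at least 2, then
the mean of their norms is at least `2.005`; and for some such points it is at most `2.0535`.
(Numerically the minimum is `2.0534...`, attained by twelve points of norm 2 and one of norm
`2.6943...`; the coordinates in the file `Upper` are those of this configuration, rounded.)

Proof. Let the norms be `2 (1 + a i)` and suppose that `ρ = 13 / 400` is larger than the sum of the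
`a i ≥ 0`. The inner products of the directions `y i` are at most `1/2 + (a i + a j)/2 ≤ 413/800`. We use the
polynomial method: for a polynomial `f` of degree 9 with nonnegative Legendre coefficients the sum of
`f (inner (y i) (y j))` over all pairs is at least `169 c0`. The polynomial is nonpositive on `[-33/50, 1/2]`.
Since at most five of the `y j` have an inner product larger than `1/2` with `y i` (a linear programming
bound on the circle), the inner products above `1/2` contribute at most `5 Λ ρ`, where `Λ` is a bound for the
slope of `f`. The vectors in the cap of the inner products below `-33/50` are at most four, and their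
contribution is bounded by a convexity argument and Gram matrices (`local_bound`).
-/

set_option autoImplicit false

namespace Pool.Agent.Results.MP_a5101a_co.MeanNormBound

open Pool.Agent.W2helper54.K13B

/-- admissible configurations: thirteen points of norm at least 2, at mutual distances at least 2 -/
def Admissible (x : Fin 13 → EuclideanSpace ℝ (Fin 3)) : Prop :=
  (∀ i, 2 ≤ ‖x i‖) ∧ ∀ i j, i ≠ j → 2 ≤ ‖x i - x j‖

/-- the mean norm of a configuration -/
noncomputable def M (x : Fin 13 → EuclideanSpace ℝ (Fin 3)) : ℝ := (∑ i, ‖x i‖) / 13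

/-- the infimum of the mean norms of the admissible configurations -/
noncomputable def m : ℝ := sInf (M '' {x | Admissible x})

lemma bound (x : Fin 13 → EuclideanSpace ℝ (Fin 3)) (hx : Admissible x) :
    401 / 200 ≤ M x := by
  obtain ⟨h1, h2⟩ := hx
  have hn : ∀ i, ‖x i‖ = 2 * (1 + (‖x i‖ / 2 - 1)) := fun i => by ring
  have ha : ∀ i, 0 ≤ ‖x i‖ / 2 - 1 := fun i => by linarith [h1 i]
  have h3 := no_thirteen (fun i => ‖x i‖⁻¹ • x i) (fun i => ‖x i‖ / 2 - 1) ha
    (fun i => by
      have : 0 < ‖x i‖ := by linarith [h1 i]
      rw [norm_smul, norm_inv, norm_norm, inv_mul_cancel₀ this.ne'])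
    (fun i j hne => dir_inner (x i) (x j) _ _ (ha i) (ha j) (hn i) (hn j) (h2 i j hne))
  have h4 : ∑ i, (‖x i‖ / 2 - 1) = (∑ i, ‖x i‖) / 2 - 13 := by
    rw [Finset.sum_sub_distrib, ← Finset.sum_div, Finset.sum_const, Finset.card_univ,
      Fintype.card_fin]
    norm_num
  rw [h4] at h3
  unfold M
  linarith

lemma upper : ∃ x, Admissible x ∧ M x ≤ 4107 / 2000 := ⟨cfg, ⟨cfg_norm, cfg_dist⟩, cfg_sum⟩

/-- every admissible configuration has mean norm at least `2.005`, some admissible configuration has
mean norm at most `2.0535`, and so the minimum mean norm `m` satisfies `2.005 ≤ m ≤ 2.0535` -/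
theorem result : (∀ x, Admissible x → 401 / 200 ≤ M x) ∧ (∃ x, Admissible x ∧ M x ≤ 4107 / 2000) ∧
    401 / 200 ≤ m ∧ m ≤ 4107 / 2000 := by
  refine ⟨bound, upper, ?_, ?_⟩
  · obtain ⟨x, hx, -⟩ := upper
    refine le_csInf ⟨M x, x, hx, rfl⟩ ?_
    rintro _ ⟨y, hy, rfl⟩
    exact bound y hy
  · obtain ⟨x, hx, hM⟩ := upper
    have hb : BddBelow (M '' {x | Admissible x}) := by
      refine ⟨401 / 200, ?_⟩
      rintro _ ⟨y, hy, rfl⟩
      exact bound y hy
    exact (csInf_le hb ⟨x, hx, rfl⟩).trans hM

end Pool.Agent.Results.MP_a5101a_co.MeanNormBound
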